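import Pool.Agent.H13.MT2

namespace Pool.Agent.Results.MP_5dc1dd_co.Parallelogram
open Pool.Agent.H13.MT

theorem result : ∃ A u v : E, LinearIndependent ℝ ![u, v] ∧
    ∃ (ι : Type) (_ : Countable ι) (t : ι → Set E), Function.Injective t ∧
      (∀ i, ∃ f : E → E, Isometry f ∧ t i = f '' convexHull ℝ {A, A + u, A + v, A + u + v}) ∧
      IsMT t Set.univ 2 ∧ ¬ Reducible t := by
  have hMT : IsMT (fun r : {r // S r} => Rc r.1) Set.univ 2 := by
    intro p hp
    obtain ⟨a, b, hab, ha, hb, h1, h2⟩ := cover p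
    have e : {i : {r // S r} | i ∈ Set.univ ∧ p ∈ interior (Rc i.1)} = {⟨a, ha⟩, ⟨b, hb⟩} := by
      ext ⟨r, hr⟩
      simp only [Set.mem_ofPred_eq, Set.mem_univ, true_and, Set.mem_insert_iff, Set.mem_singleton_iff,
        Subtype.mk.injEq]
      constructor
      · intro h
        obtain ⟨u1, u2, u3, u4⟩ := (Rc_int r p).1 h
        exact h2 r hr u1 u2 u3 u4
      · intro h
        exact int_of (Rc_closed r) (h1 r h) (hp ⟨r, hr⟩ trivial)
    rw [e, Set.encard_pair (by simpa using hab)]; rfl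
  refine ⟨0, !₂[3, 0], !₂[0, 1], ?_, {r // S r}, inferInstance, fun r => Rc r.1,
    fun a b e => Subtype.ext (Rc_inj e), ?_, hMT, ?_⟩
  · rw [LinearIndependent.pair_iff]
    intro s t h
    have h0 := congrArg (fun q : E => q 0) h
    have h1 := congrArg (fun q : E => q 1) h
    simp at h0 h1
    exact ⟨h0, h1⟩
  · intro r
    refine ⟨F r.1 1 0 0, F_iso _ (by norm_num) _ _, ?_⟩
    rw [rect_eq, F_img r.1 (by norm_num) 0 0 fun a b => 0 ≤ a ∧ a ≤ 3 ∧ 0 ≤ b ∧ b ≤ 1]
    simp [Rc]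
  · refine irred hMT ⟨(1, 1, false), by decide⟩ ⟨(3, 1, true), by decide⟩ ⟨(2, 3, false), by decide⟩
      ⟨(2, 2, true), by decide⟩ ⟨(2, 0, true), by decide⟩ ?_
    intro i j hij
    simp only [List.mem_cons, Prod.mk.injEq, List.not_mem_nil, or_false] at hij
    rcases hij with ⟨rfl, rfl⟩ | ⟨rfl, rfl⟩ | ⟨rfl, rfl⟩ | ⟨rfl, rfl⟩ | ⟨rfl, rfl⟩
    · refine ⟨by simp, pt 24 8, fun l => Rc_gen (by decide) (by decide) (by decide) (by decide) _, ?_, ?_⟩ <;>
        rw [Rc_int] <;> simp [U, W, pt] <;> norm_num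
    · refine ⟨by simp, pt 22 24, fun l => Rc_gen (by decide) (by decide) (by decide) (by decide) _, ?_, ?_⟩ <;>
        rw [Rc_int] <;> simp [U, W, pt] <;> norm_num
    · refine ⟨by simp, pt 17 25, fun l => Rc_gen (by decide) (by decide) (by decide) (by decide) _, ?_, ?_⟩ <;>
        rw [Rc_int] <;> simp [U, W, pt] <;> norm_num
    · refine ⟨by simp, pt 15 17, fun l => Rc_gen (by decide) (by decide) (by decide) (by decide) _, ?_, ?_⟩ <;>
        rw [Rc_int] <;> simp [U, W, pt] <;> norm_num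
    · refine ⟨by simp, pt 17 10, fun l => Rc_gen (by decide) (by decide) (by decide) (by decide) _, ?_, ?_⟩ <;>
        rw [Rc_int] <;> simp [U, W, pt] <;> norm_num

end Pool.Agent.Results.MP_5dc1dd_co.Parallelogram
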