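import Pool.Agent.H13.MT3

namespace Pool.Agent.Results.MP_5dc1dd_co.Triangle
open Pool.Agent.H13.MT

theorem result : ∃ A B C : E, AffineIndependent ℝ ![A, B, C] ∧
    ∃ (ι : Type) (_ : Countable ι) (t : ι → Set E), Function.Injective t ∧
      (∀ i, ∃ f : E → E, Isometry f ∧ t i = f '' convexHull ℝ {A, B, C}) ∧
      IsMT t Set.univ 2 ∧ ¬ Reducible t := by
  refine ⟨0, !₂[3, 0], !₂[0, 1], ?_, {r // S r} × Bool, inferInstance, fun i => Tr (i.1.1, i.2),
    ?_, ?_, Tr_mt, ?_⟩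
  · rw [affineIndependent_iff_linearIndependent_vsub ℝ _ (0 : Fin 3),
      ← linearIndependent_equiv (finSuccAboveEquiv (0 : Fin 3))]
    have : LinearIndependent ℝ ![(!₂[3, 0] : E), !₂[0, 1]] := by
      rw [LinearIndependent.pair_iff]
      intro s t h
      have h0 := congrArg (fun q : E => q 0) h
      have h1 := congrArg (fun q : E => q 1) h
      simp at h0 h1
      exact ⟨h0, h1⟩
    convert this using 1
    · funext i
      fin_cases i <;> simp [finSuccAboveEquiv]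
    · rfl
  · rintro ⟨a, h⟩ ⟨b, h'⟩ e
    have := Tr_inj e
    simp only [Prod.mk.injEq] at this
    exact Prod.ext (Subtype.ext this.1) this.2
  · rintro ⟨r, h⟩
    cases h
    · refine ⟨F r.1 1 0 0, F_iso _ (by norm_num) _ _, ?_⟩
      rw [tri_eq, F_img r.1 (by norm_num) 0 0 fun a b => 0 ≤ a ∧ 0 ≤ b ∧ a + 3 * b ≤ 3]
      simp [Tr]
    · refine ⟨F r.1 (-1) 3 1, F_iso _ (by norm_num) _ _, ?_⟩
      rw [tri_eq, F_img r.1 (by norm_num) 3 1 fun a b => 0 ≤ a ∧ 0 ≤ b ∧ a + 3 * b ≤ 3]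
      ext q
      simp only [Tr, cond_true, Set.mem_ofPred_eq]
      constructor <;> rintro ⟨a, b, c⟩ <;> refine ⟨?_, ?_, ?_⟩ <;> linarith
  · refine irred Tr_mt (⟨(1, 1, false), by decide⟩, false) (⟨(3, 1, true), by decide⟩, false)
      (⟨(2, 3, false), by decide⟩, false) (⟨(2, 2, true), by decide⟩, false)
      (⟨(2, 0, true), by decide⟩, false) ?_
    intro i j hij
    simp only [List.mem_cons, Prod.mk.injEq, List.not_mem_nil, or_false] at hij
    rcases hij with ⟨rfl, rfl⟩ | ⟨rfl, rfl⟩ | ⟨rfl, rfl⟩ | ⟨rfl, rfl⟩ | ⟨rfl, rfl⟩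
    · refine ⟨by simp, pt 24 8, fun l => Tr_gen (by decide) (by decide) (by decide) (by decide) _, ?_, ?_⟩ <;>
        rw [Tr_int0] <;> simp [U, W, pt] <;> norm_num
    · refine ⟨by simp, pt 22 24, fun l => Tr_gen (by decide) (by decide) (by decide) (by decide) _, ?_, ?_⟩ <;>
        rw [Tr_int0] <;> simp [U, W, pt] <;> norm_num
    · refine ⟨by simp, pt 17 25, fun l => Tr_gen (by decide) (by decide) (by decide) (by decide) _, ?_, ?_⟩ <;>
        rw [Tr_int0] <;> simp [U, W, pt] <;> norm_num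
    · refine ⟨by simp, pt 15 17, fun l => Tr_gen (by decide) (by decide) (by decide) (by decide) _, ?_, ?_⟩ <;>
        rw [Tr_int0] <;> simp [U, W, pt] <;> norm_num
    · refine ⟨by simp, pt 17 10, fun l => Tr_gen (by decide) (by decide) (by decide) (by decide) _, ?_, ?_⟩ <;>
        rw [Tr_int0] <;> simp [U, W, pt] <;> norm_num

end Pool.Agent.Results.MP_5dc1dd_co.Triangle
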